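import Mathlib
import Pool.Agent.MP32694d.Defs
import Pool.Agent.MP32694d.Assembly

/-!
# Bézout denominator versus resultant

`B(f, g) = |Res(f, g)|` holds for coprime integer polynomials iff modulo every prime the pair does
not lose both leading coefficients and has a gcd of degree at most one (`bezout_eq_iff`). The local
density of this condition is `(1 - 1/l^2)^2` (`goodSet_density`), the tail over large primes is
negligible (`large_bad`, `medium_bad`), and so the density is `ζ(2)^(-2) = 36/π^4 < 1/2`.
-/

open Filter Topology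

namespace Pool.Agent.Results.MP_32694d_nt.BezoutDensity

open Pool.Agent.MP32694d

/-- For all `m, n ≥ 2` the limit of `ρ_{m,n}(H)` exists, equals `36/π^4`, and is less than `1/2`. -/
theorem result : ∀ m n : ℕ, 2 ≤ m → 2 ≤ n →
    Tendsto (fun H : ℕ => rho m n H) atTop (𝓝 (36 / Real.pi ^ 4)) ∧
      (36 / Real.pi ^ 4 : ℝ) < 1 / 2 := by
  intro m n hm hn
  refine ⟨rho_tendsto m n hm hn, ?_⟩
  have h3 : (3 : ℝ) < Real.pi := Real.pi_gt_three
  have h4 : (81 : ℝ) < Real.pi ^ 4 := by
    have : (3 : ℝ) ^ 4 < Real.pi ^ 4 := pow_lt_pow_left₀ h3 (by norm_num) (by norm_num)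
    linarith
  rw [div_lt_div_iff₀ (by positivity) (by norm_num)]
  linarith

end Pool.Agent.Results.MP_32694d_nt.BezoutDensity
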